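import Mathlib

/-!
# MP_87e037_al : a nonzero lowering map exists for every recurrent sequence

Write `ϑ i = ∑_{h < i} (θ h - θ (d - h))`. The map `Ψ` with `Ψ τ_i = ϑ_i τ_{i-1}` satisfies
`Ψ ρ_i = ϑ_i ρ_{i-1}`. The proof is an induction for the coefficients `a i j` of `ρ_i` with
respect to the basis `τ_j`; it uses the identity
`(ϑ (I+1+s) - ϑ (j+s)) (θ j - θ (d-I)) = (ϑ (I+1) - ϑ j) (θ (j+s) - θ (d-I-s))`,
which holds since both differences, as functions of `s`, satisfy the recurrence
`u (s+1) + u (s-1) = β u s` and are antisymmetric about the same point.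
-/

namespace Pool.Agent.Results.MP_87e037_al.LoweringMap

open Polynomial Finset

/-- `τ_i = (λ - θ_0) ... (λ - θ_{i-1})` -/
noncomputable def tau {K : Type*} [Field K] (θ : ℕ → K) (i : ℕ) : K[X] :=
  ∏ h ∈ range i, (X - C (θ h))

/-- `ρ_i = (λ - θ_d) ... (λ - θ_{d-i+1})` -/
noncomputable def rho {K : Type*} [Field K] (θ : ℕ → K) (d i : ℕ) : K[X] :=
  ∏ h ∈ range i, (X - C (θ (d - h)))

/-- A lowering map on the space of the polynomials of degree at most `d`. -/
def IsLowering {K : Type*} [Field K] (θ : ℕ → K) (d : ℕ)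
    (Ψ : degreeLE K (d : WithBot ℕ) →ₗ[K] degreeLE K (d : WithBot ℕ)) : Prop :=
  (∀ v : degreeLE K (d : WithBot ℕ), (v : K[X]) = tau θ 0 → Ψ v = 0) ∧
  (∀ v : degreeLE K (d : WithBot ℕ), (v : K[X]) = rho θ d 0 → Ψ v = 0) ∧
  (∀ i, 1 ≤ i → i ≤ d → ∀ v : degreeLE K (d : WithBot ℕ), (v : K[X]) = tau θ i →
    (Ψ v : K[X]) ∈ Submodule.span K {tau θ (i - 1)}) ∧
  (∀ i, 1 ≤ i → i ≤ d → ∀ v : degreeLE K (d : WithBot ℕ), (v : K[X]) = rho θ d i →
    (Ψ v : K[X]) ∈ Submodule.span K {rho θ d (i - 1)})

section Sequences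

variable {K : Type*} [CommRing K]

/-- A solution of the recurrence that vanishes at two neighbouring integers is zero. -/
theorem zero_of_two {β : K} {F : ℤ → K} (hF : ∀ s, F (s + 1) + F (s - 1) = β * F s) {p : ℤ}
    (h0 : F p = 0) (h1 : F (p + 1) = 0) (s : ℤ) : F s = 0 := by
  have up : ∀ n : ℕ, F (p + n) = 0 ∧ F (p + n + 1) = 0 := by
    intro n
    induction n with
    | zero => simpa using ⟨h0, h1⟩
    | succ n ih =>
      have h := hF (p + n + 1)
      rw [ih.2, show p + (n : ℤ) + 1 - 1 = p + n by ring, ih.1] at h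
      push_cast
      refine ⟨?_, ?_⟩
      · rw [show p + ((n : ℤ) + 1) = p + n + 1 by ring]
        exact ih.2
      · rw [show p + ((n : ℤ) + 1) + 1 = p + n + 1 + 1 by ring]
        simpa using h
  have down : ∀ n : ℕ, F (p - n) = 0 ∧ F (p - n + 1) = 0 := by
    intro n
    induction n with
    | zero => simpa using ⟨h0, h1⟩
    | succ n ih =>
      have h := hF (p - n)
      rw [ih.1, ih.2] at h
      push_cast
      refine ⟨?_, ?_⟩
      · rw [show p - ((n : ℤ) + 1) = p - n - 1 by ring]
        simpa using h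
      · rw [show p - ((n : ℤ) + 1) + 1 = p - n by ring]
        exact ih.1
  rcases le_total p s with h | h
  · obtain ⟨n, hn⟩ := Int.le.dest h
    rw [← hn]
    exact (up n).1
  · obtain ⟨n, hn⟩ := Int.le.dest h
    have : s = p - n := by omega
    rw [this]
    exact (down n).1

/-- Two antisymmetric solutions of the recurrence are proportional. -/
theorem proportional {β : K} {u v : ℤ → K} (hu : ∀ s, u (s + 1) + u (s - 1) = β * u s)
    (hv : ∀ s, v (s + 1) + v (s - 1) = β * v s) {m : ℤ}
    (hu' : ∀ s, u (m - s) = - u s) (hv' : ∀ s, v (m - s) = - v s)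
    (hu0 : ∀ p, m = p + p → u p = 0) (hv0 : ∀ p, m = p + p → v p = 0) (s t : ℤ) :
    u s * v t = u t * v s := by
  have key : ∀ a b : K, ∀ s, (fun s => u s * b - a * v s) (s + 1) +
      (fun s => u s * b - a * v s) (s - 1) = β * (fun s => u s * b - a * v s) s := by
    intro a b s
    beta_reduce
    linear_combination b * hu s - a * hv s
  rcases Int.even_or_odd' m with ⟨p, hp | hp⟩
  · have hp' : m = p + p := by omega
    have h1 : ∀ s, u s * v (p + 1) - u (p + 1) * v s = 0 := by
      intro s
      refine zero_of_two (F := fun s => u s * v (p + 1) - u (p + 1) * v s)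
        (key (u (p + 1)) (v (p + 1))) (p := p) ?_ ?_ s
      · simp only [hu0 p hp', hv0 p hp']
        ring
      · ring
    have h2 : u s * v t - u t * v s = 0 := by
      refine zero_of_two (F := fun s => u s * v t - u t * v s) (key (u t) (v t)) (p := p) ?_ ?_ s
      · simp only [hu0 p hp', hv0 p hp']
        ring
      · linear_combination -h1 t
    linear_combination h2
  · have hup : u (p + 1) = - u p := by
      rw [← hu' p]
      congr 1
      omega
    have hvp : v (p + 1) = - v p := by
      rw [← hv' p]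
      congr 1
      omega
    have h1 : ∀ s, u s * v p - u p * v s = 0 := by
      intro s
      refine zero_of_two (F := fun s => u s * v p - u p * v s)
        (key (u p) (v p)) (p := p) ?_ ?_ s
      · ring
      · simp only [hup, hvp]
        ring
    have h2 : u s * v t - u t * v s = 0 := by
      refine zero_of_two (F := fun s => u s * v t - u t * v s) (key (u t) (v t)) (p := p) ?_ ?_ s
      · linear_combination -h1 t
      · simp only [hup, hvp]
        linear_combination h1 t
    linear_combination h2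

/-- A two-sided solution of the inhomogeneous recurrence with given values at `0` and `1`. -/
theorem exists_ext (β γ x y : K) : ∃ T : ℤ → K, T 0 = x ∧ T 1 = y ∧
    ∀ s, T (s + 1) + T (s - 1) = β * T s + γ := by
  -- one-sided solutions
  have one : ∀ x y : K, ∃ f : ℕ → K, f 0 = x ∧ f 1 = y ∧
      ∀ n, f (n + 2) + f n = β * f (n + 1) + γ := by
    intro x y
    refine ⟨fun n => ((fun p : K × K => (p.2, β * p.2 + γ - p.1))^[n] (x, y)).1, rfl, rfl, ?_⟩
    intro n
    simp only [Function.iterate_succ_apply']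
    ring
  obtain ⟨f, hf0, hf1, hf⟩ := one x y
  obtain ⟨g, hg0, hg1, hg⟩ := one x (β * x + γ - y)
  refine ⟨fun s => if 0 ≤ s then f s.toNat else g (-s).toNat, ?_, ?_, ?_⟩
  · simpa using hf0
  · simpa using hf1
  · intro s
    rcases lt_trichotomy s 0 with h | h | h
    · rcases lt_or_eq_of_le (show s ≤ -1 by omega) with h2 | h2
      · obtain ⟨n, hn⟩ : ∃ n : ℕ, s = -(n : ℤ) - 2 := ⟨(-s - 2).toNat, by omega⟩
        have e1 : ¬ (0 ≤ s + 1) := by omega
        have e2 : ¬ (0 ≤ s - 1) := by omega
        have e3 : ¬ (0 ≤ s) := by omega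
        simp only [e1, e2, e3, if_false]
        have e4 : (-(s + 1)).toNat = n + 1 := by omega
        have e5 : (-(s - 1)).toNat = n + 1 + 2 := by omega
        have e6 : (-s).toNat = n + 1 + 1 := by omega
        rw [e4, e5, e6]
        linear_combination hg (n + 1)
      · subst h2
        have e0 := hg 0
        have e1 : ¬ ((0 : ℤ) ≤ -1) := by omega
        have e2 : ¬ ((0 : ℤ) ≤ -1 - 1) := by omega
        have e3 : (0 : ℤ) ≤ -1 + 1 := by omega
        have e4 : (-(-1 - 1) : ℤ).toNat = 0 + 2 := by omega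
        have e5 : (-(-1) : ℤ).toNat = 0 + 1 := by omega
        have e6 : ((-1 : ℤ) + 1).toNat = 0 := by omega
        simp only [e1, e2, e3, if_false, if_true]
        rw [e4, e5, e6, hf0, ← hg0]
        linear_combination e0
    · subst h
      norm_num
      rw [hf0, hf1, hg1]
      ring
    · obtain ⟨n, hn⟩ : ∃ n : ℕ, s = (n : ℤ) + 1 := ⟨(s - 1).toNat, by omega⟩
      have e1 : 0 ≤ s + 1 := by omega
      have e2 : 0 ≤ s - 1 := by omega
      have e3 : 0 ≤ s := by omega
      simp only [e1, e2, e3, if_true]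
      have e4 : (s + 1).toNat = n + 2 := by omega
      have e5 : (s - 1).toNat = n := by omega
      have e6 : s.toNat = n + 1 := by omega
      rw [e4, e5, e6]
      exact hf n

/-- The identity behind the induction. -/
theorem identity {β γ : K} {T : ℤ → K} (hT : ∀ s, T (s + 1) + T (s - 1) = β * T s + γ)
    (D x : ℤ) (n : ℕ) (s t : ℤ) :
    (∑ h ∈ range n, (T (x + s + h) - T (D - (x + s + h)))) *
      (T (x + t) - T (D - x - n + 1 - t)) =
    (∑ h ∈ range n, (T (x + t + h) - T (D - (x + t + h)))) *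
      (T (x + s) - T (D - x - n + 1 - s)) := by
  have hg : ∀ z : ℤ, (T (z + 1) - T (D - (z + 1))) + (T (z - 1) - T (D - (z - 1))) =
      β * (T z - T (D - z)) := by
    intro z
    have h1 := hT z
    have h2 := hT (D - z)
    rw [show D - z + 1 = D - (z - 1) by ring, show D - z - 1 = D - (z + 1) by ring] at h2
    linear_combination h1 - h2
  refine proportional (β := β) (m := D - x - x - n + 1)
    (u := fun s => ∑ h ∈ range n, (T (x + s + h) - T (D - (x + s + h))))
    (v := fun s => T (x + s) - T (D - x - n + 1 - s)) ?_ ?_ ?_ ?_ ?_ ?_ s t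
  · intro s
    rw [← sum_add_distrib, mul_sum]
    refine sum_congr rfl fun h _ => ?_
    have := hg (x + s + h)
    rw [show x + (s + 1) + (h : ℤ) = x + s + h + 1 by ring,
      show x + (s - 1) + (h : ℤ) = x + s + h - 1 by ring]
    exact this
  · intro s
    have h1 := hT (x + s)
    have h2 := hT (D - x - n + 1 - s)
    rw [show x + s + 1 = x + (s + 1) by ring, show x + s - 1 = x + (s - 1) by ring] at h1
    rw [show D - x - n + 1 - s + 1 = D - x - n + 1 - (s - 1) by ring,
      show D - x - n + 1 - s - 1 = D - x - n + 1 - (s + 1) by ring] at h2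
    linear_combination h1 - h2
  · intro s
    rw [← sum_range_reflect, ← sum_neg_distrib]
    refine sum_congr rfl fun h hh => ?_
    rw [mem_range] at hh
    have e : ((n - 1 - h : ℕ) : ℤ) = n - 1 - h := by omega
    rw [e, show x + (D - x - x - n + 1 - s) + ((n : ℤ) - 1 - h) = D - (x + s + h) by ring,
      show D - (D - (x + s + (h : ℤ))) = x + s + h by ring]
    ring
  · intro s
    rw [show x + (D - x - x - n + 1 - s) = D - x - n + 1 - s by ring,
      show D - x - n + 1 - (D - x - x - n + 1 - s) = x + s by ring]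
    ring
  · intro p hp
    -- the sum of an antisymmetric function over a symmetric range
    have hsym : ∀ h ∈ range n, T (x + p + (h : ℤ)) = T (D - (x + p + ((n - 1 - h : ℕ) : ℤ))) := by
      intro h hh
      rw [mem_range] at hh
      congr 1
      have e : ((n - 1 - h : ℕ) : ℤ) = n - 1 - h := by omega
      rw [e]
      linear_combination -hp
    rw [sum_sub_distrib, sum_congr rfl hsym,
      sum_range_reflect (fun h => T (D - (x + p + (h : ℤ)))) n, sub_self]
  · intro p hp
    rw [sub_eq_zero]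
    congr 1
    linear_combination -hp

/-- The partial sums `ϑ i`. -/
def vth (T : ℤ → K) (d : ℕ) (i : ℕ) : K := ∑ h ∈ range i, (T h - T ((d : ℤ) - h))

/-- The coefficients of `ρ_i` with respect to the `τ_j`. -/
def co (T : ℤ → K) (d : ℕ) : ℕ → ℕ → K
  | 0, 0 => 1
  | 0, _ + 1 => 0
  | i + 1, 0 => (T 0 - T ((d : ℤ) - i)) * co T d i 0
  | i + 1, j + 1 => co T d i j + (T ((j : ℤ) + 1) - T ((d : ℤ) - i)) * co T d i (j + 1)

theorem co_succ_zero (T : ℤ → K) (d i : ℕ) :
    co T d (i + 1) 0 = (T 0 - T ((d : ℤ) - i)) * co T d i 0 := by rw [co]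

theorem co_succ_succ (T : ℤ → K) (d i j : ℕ) : co T d (i + 1) (j + 1) =
    co T d i j + (T ((j : ℤ) + 1) - T ((d : ℤ) - i)) * co T d i (j + 1) := by rw [co]

theorem co_zero_succ (T : ℤ → K) (d j : ℕ) : co T d 0 (j + 1) = 0 := by rw [co]

theorem co_eq_zero (T : ℤ → K) (d : ℕ) : ∀ i j, i < j → co T d i j = 0 := by
  intro i
  induction i with
  | zero =>
    intro j hj
    obtain ⟨k, rfl⟩ : ∃ k, j = k + 1 := ⟨j - 1, by omega⟩
    exact co_zero_succ T d k
  | succ i ih =>
    intro j hj
    obtain ⟨k, rfl⟩ : ∃ k, j = k + 1 := ⟨j - 1, by omega⟩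
    rw [co_succ_succ, ih k (by omega), ih (k + 1) (by omega)]
    ring

theorem vth_sub (T : ℤ → K) (d : ℕ) {a b : ℕ} (h : a ≤ b) :
    vth T d b - vth T d a = ∑ l ∈ range (b - a), (T ((a : ℤ) + l) - T ((d : ℤ) - (a + l))) := by
  unfold vth
  obtain ⟨c, rfl⟩ := Nat.exists_eq_add_of_le h
  rw [sum_range_add, add_sub_cancel_left, Nat.add_sub_cancel_left]
  refine sum_congr rfl fun l _ => ?_
  push_cast
  rfl

/-- The identity in terms of `ϑ`. -/
theorem identity' {β γ : K} {T : ℤ → K} (hT : ∀ s, T (s + 1) + T (s - 1) = β * T s + γ)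
    (d I j s : ℕ) (hj : j ≤ I + 1) :
    (vth T d (I + 1 + s) - vth T d (j + s)) * (T j - T ((d : ℤ) - I)) =
      (vth T d (I + 1) - vth T d j) * (T ((j : ℤ) + s) - T ((d : ℤ) - I - s)) := by
  have h := identity hT (d : ℤ) j (I + 1 - j) s 0
  rw [vth_sub T d (show j + s ≤ I + 1 + s by omega), vth_sub T d hj,
    show I + 1 + s - (j + s) = I + 1 - j by omega]
  have e : ((I + 1 - j : ℕ) : ℤ) = I + 1 - j := by omega
  rw [e, show (d : ℤ) - j - (I + 1 - j) + 1 - 0 = d - I by ring,
    show (d : ℤ) - j - (I + 1 - j) + 1 - s = d - I - s by ring, add_zero] at h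
  push_cast
  convert h using 3

theorem vth_zero (T : ℤ → K) (d : ℕ) : vth T d 0 = 0 := by
  unfold vth
  simp

/-- The two relations between the coefficients. -/
theorem relations {β γ : K} {T : ℤ → K} (hT : ∀ s, T (s + 1) + T (s - 1) = β * T s + γ)
    (d : ℕ) : ∀ I : ℕ,
    (∀ j s : ℕ, (vth T d (I + s + 1) - vth T d (j + s)) * co T d (I + 1) j =
      vth T d (I + 1) * (T ((j : ℤ) + s) - T ((d : ℤ) - I - s)) * co T d I j) ∧
    (∀ j : ℕ, vth T d (j + 1) * co T d (I + 1) (j + 1) = vth T d (I + 1) * co T d I j) := by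
  intro I
  induction I with
  | zero =>
    refine ⟨?_, ?_⟩
    · intro j s
      rcases j with _ | j
      · rw [co_succ_zero]
        have h := identity' hT d 0 0 s (by omega)
        rw [vth_zero, sub_zero] at h
        have e1 : 0 + 1 + s = 0 + s + 1 := by ring
        rw [e1] at h
        push_cast at h ⊢
        linear_combination (co T d 0 0) * h
      · rcases j with _ | j
        · rw [co_succ_succ, co_zero_succ]
          have : 0 + s + 1 = 0 + 1 + s := by ring
          rw [this]
          ring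
        · rw [co_eq_zero T d (0 + 1) (j + 1 + 1) (by omega), co_zero_succ]
          ring
    · intro j
      rcases j with _ | j
      · rw [co_succ_succ, co_zero_succ]
        ring
      · rw [co_eq_zero T d (0 + 1) (j + 1 + 1) (by omega), co_zero_succ]
        ring
  | succ I ih =>
    obtain ⟨ihD, ihR⟩ := ih
    -- the second relation
    have hR : ∀ j : ℕ, vth T d (j + 1) * co T d (I + 1 + 1) (j + 1) =
        vth T d (I + 1 + 1) * co T d (I + 1) j := by
      intro j
      rw [co_succ_succ]
      have h1 := ihR j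
      have h2 := ihD j 1
      have e : (d : ℤ) - I - (1 : ℕ) = (d : ℤ) - (I + 1 : ℕ) := by push_cast; ring
      rw [e] at h2
      have e2 : (j : ℤ) + (1 : ℕ) = (j : ℤ) + 1 := by push_cast; ring
      rw [e2] at h2
      linear_combination (T ((j : ℤ) + 1) - T ((d : ℤ) - (I + 1 : ℕ))) * h1 - h2
    refine ⟨?_, hR⟩
    intro j s
    rcases j with _ | j
    · rw [co_succ_zero]
      have h := identity' hT d (I + 1) 0 s (by omega)
      rw [vth_zero, sub_zero] at h
      have e1 : I + 1 + 1 + s = I + 1 + s + 1 := by ring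
      rw [e1] at h
      push_cast at h ⊢
      linear_combination (co T d (I + 1) 0) * h
    · rcases le_or_gt (j + 1) (I + 1 + 1) with hle | hgt
      · rw [co_succ_succ T d (I + 1) j]
        have h1 := ihD j (s + 1)
        have h2 := ihR j
        have h3 := identity' hT d (I + 1) (j + 1) s hle
        have e1 : I + (s + 1) + 1 = I + 1 + s + 1 := by ring
        have e2 : j + (s + 1) = j + 1 + s := by ring
        have e3 : (j : ℤ) + ((s + 1 : ℕ) : ℤ) = ((j + 1 : ℕ) : ℤ) + s := by push_cast; ring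
        have e4 : (d : ℤ) - I - ((s + 1 : ℕ) : ℤ) = (d : ℤ) - (I + 1 : ℕ) - s := by
          push_cast; ring
        rw [e1, e2, e3, e4] at h1
        have e5 : I + 1 + 1 + s = I + 1 + s + 1 := by ring
        rw [e5] at h3
        have e6 : ((j + 1 : ℕ) : ℤ) = (j : ℤ) + 1 := by push_cast; ring
        rw [← e6]
        linear_combination h1 - (T (((j + 1 : ℕ) : ℤ) + s) - T ((d : ℤ) - (I + 1 : ℕ) - s)) * h2
          + co T d (I + 1) (j + 1) * h3
      · rw [co_eq_zero T d (I + 1 + 1) (j + 1) (by omega), co_eq_zero T d (I + 1) (j + 1) (by omega)]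
        ring

end Sequences

section Main

variable {K : Type*} [Field K]

/-- `τ_j` for a two-sided sequence -/
noncomputable def tauT (T : ℤ → K) (i : ℕ) : K[X] := ∏ h ∈ range i, (X - C (T h))

/-- `ρ_i` for a two-sided sequence -/
noncomputable def rhoT (T : ℤ → K) (d i : ℕ) : K[X] := ∏ h ∈ range i, (X - C (T ((d : ℤ) - h)))

theorem tauT_succ (T : ℤ → K) (i : ℕ) : tauT T (i + 1) = tauT T i * (X - C (T i)) := by
  unfold tauT
  rw [prod_range_succ]

theorem rhoT_succ (T : ℤ → K) (d i : ℕ) :
    rhoT T d (i + 1) = rhoT T d i * (X - C (T ((d : ℤ) - i))) := by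
  unfold rhoT
  rw [prod_range_succ]

theorem rhoT_eq (T : ℤ → K) (d i : ℕ) :
    rhoT T d i = ∑ j ∈ range (i + 1), co T d i j • tauT T j := by
  induction i with
  | zero => simp [rhoT, tauT, co]
  | succ i ih =>
    have h1 : ∀ j, (co T d i j • tauT T j) * (X - C (T ((d : ℤ) - i))) =
        co T d i j • tauT T (j + 1) + ((T j - T ((d : ℤ) - i)) * co T d i j) • tauT T j := by
      intro j
      rw [tauT_succ]
      simp only [smul_eq_C_mul, C_mul, C_sub]
      ring
    rw [rhoT_succ, ih, sum_mul, sum_congr rfl fun j _ => h1 j, sum_add_distrib,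
      sum_range_succ' (fun j => co T d (i + 1) j • tauT T j) (i + 1)]
    have h2 : ∀ j, co T d (i + 1) (j + 1) • tauT T (j + 1) = co T d i j • tauT T (j + 1) +
        ((T ((j + 1 : ℕ) : ℤ) - T ((d : ℤ) - i)) * co T d i (j + 1)) • tauT T (j + 1) := by
      intro j
      rw [co_succ_succ, add_smul]
      push_cast
      rfl
    rw [sum_congr rfl fun j _ => h2 j, sum_add_distrib, add_assoc]
    congr 1
    rw [co_succ_zero]
    have h3 := sum_range_succ' (fun j => ((T (j : ℤ) - T ((d : ℤ) - i)) * co T d i j) • tauT T j)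
      (i + 1)
    have h4 := sum_range_succ (fun j => ((T (j : ℤ) - T ((d : ℤ) - i)) * co T d i j) • tauT T j)
      (i + 1)
    rw [co_eq_zero T d i (i + 1) (by omega), mul_zero, zero_smul, add_zero] at h4
    rw [← h4, h3]
    simp

/-- the polynomial sequence `τ_j` -/
noncomputable def seq (T : ℤ → K) : Polynomial.Sequence K where
  elems' := tauT T
  degree_eq' := by
    intro i
    have h1 : (tauT T i).Monic := monic_prod_of_monic _ _ fun h _ => monic_X_sub_C _
    rw [degree_eq_natDegree h1.ne_zero]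
    congr 1
    unfold tauT
    rw [natDegree_prod_of_monic _ _ fun h _ => monic_X_sub_C _]
    simp

theorem seq_apply (T : ℤ → K) (i : ℕ) : seq T i = tauT T i := rfl

theorem seq_unit (T : ℤ → K) (i : ℕ) : IsUnit (seq T i).leadingCoeff :=
  (leadingCoeff_ne_zero.2 ((seq T).ne_zero i)).isUnit

/-- the lowering map on all polynomials -/
noncomputable def psi (T : ℤ → K) (d : ℕ) : K[X] →ₗ[K] K[X] :=
  ((seq T).basis (seq_unit T)).constr K fun j => vth T d j • tauT T (j - 1)

theorem psi_tau (T : ℤ → K) (d j : ℕ) : psi T d (tauT T j) = vth T d j • tauT T (j - 1) := by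
  have h := ((seq T).basis (seq_unit T)).constr_basis K
    (fun j => vth T d j • tauT T (j - 1)) j
  rwa [Polynomial.Sequence.basis_eq_self, seq_apply] at h

theorem psi_rho {β γ : K} {T : ℤ → K} (hT : ∀ s, T (s + 1) + T (s - 1) = β * T s + γ)
    (d i : ℕ) : psi T d (rhoT T d (i + 1)) = vth T d (i + 1) • rhoT T d i := by
  rw [rhoT_eq, map_sum, sum_range_succ']
  simp only [map_smul, psi_tau, vth_zero, zero_smul, smul_zero, add_zero,
    Nat.add_sub_cancel]
  rw [rhoT_eq, smul_sum]
  refine sum_congr rfl fun j _ => ?_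
  rw [smul_smul, smul_smul, ← (relations hT d i).2 j, mul_comm]

theorem psi_mem (T : ℤ → K) (d : ℕ) (p : K[X]) (hp : p ∈ degreeLE K (d : WithBot ℕ)) :
    psi T d p ∈ degreeLE K (d : WithBot ℕ) := by
  rw [← (seq T).span_degreeLE (fun i _ => seq_unit T i)] at hp
  induction hp using Submodule.span_induction with
  | mem x hx =>
    obtain ⟨j, hj, rfl⟩ := hx
    rw [seq_apply, psi_tau]
    refine Submodule.smul_mem _ _ ?_
    rw [mem_degreeLE, ← seq_apply, Polynomial.Sequence.degree_eq]
    have : j - 1 ≤ d := (Nat.sub_le j 1).trans hj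
    exact_mod_cast this
  | zero => simp
  | add x y _ _ hx hy =>
    rw [map_add]
    exact Submodule.add_mem _ hx hy
  | smul a x _ hx =>
    rw [map_smul]
    exact Submodule.smul_mem _ _ hx

/-- The constants of the recurrence. -/
theorem exists_const (d : ℕ) (θ : ℕ → K) (hθ : ∀ i ≤ d, ∀ j ≤ d, θ i = θ j → i = j)
    (hr : ∃ r : K, ∀ i, 2 ≤ i → i ≤ d - 1 →
      (θ (i - 2) - θ (i + 1)) * (θ (i - 1) - θ i)⁻¹ = r) :
    ∃ β γ : K, ∀ k, k + 2 ≤ d → θ (k + 2) + θ k = β * θ (k + 1) + γ := by
  obtain ⟨r, hr⟩ := hr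
  refine ⟨r - 1, θ 2 + θ 0 - (r - 1) * θ 1, fun k => ?_⟩
  induction k with
  | zero =>
    intro _
    simp
  | succ k ih =>
    intro hk
    have h1 := ih (by omega)
    have h2 := hr (k + 2) (by omega) (by omega)
    rw [Nat.add_sub_cancel, show k + 2 + 1 = k + 1 + 2 by ring,
      show k + 2 - 1 = k + 1 by omega] at h2
    have h3 : θ (k + 1) - θ (k + 2) ≠ 0 := by
      intro h
      have := hθ (k + 1) (by omega) (k + 2) (by omega) (sub_eq_zero.1 h)
      omega
    have h4 : θ k - θ (k + 1 + 2) = r * (θ (k + 1) - θ (k + 2)) := by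
      rw [← h2]
      field_simp
    have e : k + 1 + 1 = k + 2 := rfl
    rw [e]
    linear_combination h1 - h4

/-- For every field and every sequence of distinct scalars that satisfies the recurrence
condition there is a nonzero lowering map. -/
theorem result (K : Type*) [Field K] (d : ℕ) (hd : 1 ≤ d) (θ : ℕ → K)
    (hθ : ∀ i ≤ d, ∀ j ≤ d, θ i = θ j → i = j)
    (hr : ∃ r : K, ∀ i, 2 ≤ i → i ≤ d - 1 →
      (θ (i - 2) - θ (i + 1)) * (θ (i - 1) - θ i)⁻¹ = r) :
    ∃ Ψ : degreeLE K (d : WithBot ℕ) →ₗ[K] degreeLE K (d : WithBot ℕ),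
      IsLowering θ d Ψ ∧ Ψ ≠ 0 := by
  obtain ⟨β, γ, h⟩ := exists_const d θ hθ hr
  obtain ⟨T, hT0, hT1, hT⟩ := exists_ext β γ (θ 0) (θ 1)
  have hTθ : ∀ k : ℕ, k ≤ d → T k = θ k := by
    intro k
    induction k using Nat.strong_induction_on with
    | _ k ih =>
      intro hk
      rcases k with _ | _ | k
      · exact_mod_cast hT0
      · exact_mod_cast hT1
      · have h1 := h k (by omega)
        have h2 := hT ((k : ℤ) + 1)
        have h3 := ih k (by omega) (by omega)
        have h4 := ih (k + 1) (by omega) (by omega)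
        push_cast at h4 ⊢
        rw [add_sub_cancel_right, h3, h4] at h2
        rw [show (k : ℤ) + 1 + 1 = (k : ℤ) + 1 + 1 by ring]
        linear_combination h2 - h1
  have htau : ∀ i ≤ d, tau θ i = tauT T i := by
    intro i hi
    unfold tau tauT
    refine prod_congr rfl fun l hl => ?_
    rw [mem_range] at hl
    rw [hTθ l (by omega)]
  have hrho : ∀ i ≤ d, rho θ d i = rhoT T d i := by
    intro i hi
    unfold rho rhoT
    refine prod_congr rfl fun l hl => ?_
    rw [mem_range] at hl
    rw [← hTθ (d - l) (by omega), Nat.cast_sub (by omega)]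
  refine ⟨(psi T d).restrict (psi_mem T d), ⟨?_, ?_, ?_, ?_⟩, ?_⟩
  · intro v hv
    apply Subtype.ext
    rw [LinearMap.coe_restrict_apply, hv, htau 0 (by omega), psi_tau, vth_zero, zero_smul]
    rfl
  · intro v hv
    apply Subtype.ext
    have h0 : rho θ d 0 = tauT T 0 := by simp [rho, tauT]
    rw [LinearMap.coe_restrict_apply, hv, h0, psi_tau, vth_zero, zero_smul]
    rfl
  · intro i h1 h2 v hv
    rw [LinearMap.coe_restrict_apply, hv, htau i h2, psi_tau, htau (i - 1) (by omega)]
    exact Submodule.smul_mem _ _ (Submodule.mem_span_singleton_self _)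
  · intro i h1 h2 v hv
    obtain ⟨k, rfl⟩ : ∃ k, i = k + 1 := ⟨i - 1, by omega⟩
    rw [LinearMap.coe_restrict_apply, hv, hrho (k + 1) h2, psi_rho hT, Nat.add_sub_cancel,
      hrho k (by omega)]
    exact Submodule.smul_mem _ _ (Submodule.mem_span_singleton_self _)
  · intro h0
    have hmem : tauT T 1 ∈ degreeLE K (d : WithBot ℕ) := by
      rw [mem_degreeLE, ← seq_apply, Polynomial.Sequence.degree_eq]
      exact_mod_cast hd
    have h1 := congrArg (fun f => ((f ⟨tauT T 1, hmem⟩ : degreeLE K (d : WithBot ℕ)) : K[X])) h0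
    simp only [LinearMap.coe_restrict_apply, psi_tau, LinearMap.zero_apply,
      ZeroMemClass.coe_zero] at h1
    have h2 : tauT T (1 - 1) = 1 := by simp [tauT]
    have h3 : vth T d 1 = θ 0 - θ d := by
      unfold vth
      rw [range_one, sum_singleton, Nat.cast_zero, sub_zero, hT0, hTθ d le_rfl]
    rw [h2, h3, smul_eq_zero] at h1
    rcases h1 with h1 | h1
    · have := hθ 0 (by omega) d le_rfl (sub_eq_zero.1 h1)
      omega
    · exact one_ne_zero h1

end Main

end Pool.Agent.Results.MP_87e037_al.LoweringMap
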